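import Pool.Agent.Helper78.BigMap.Goals

/-! Packet C4 of MP_2b9d24_gt: extension of a planar homeomorphism to the surface. -/

set_option autoImplicit false

open Topology Filter Set Metric Pool.Agent.Helper78.BigMap

namespace Pool.Agent.Helper67.Big

/-- `PosAt` only depends on the germ. -/
lemma posAt_congr {F G : ℂ → ℂ} {z : ℂ} (h : PosAt F z) (hFG : F =ᶠ[𝓝 z] G) : PosAt G z := by
  obtain ⟨δ, hδ, hb⟩ := Metric.eventually_nhds_iff.1 hFG
  have hev : ∀ᶠ r : ℝ in 𝓝[>] 0, 0 < r ∧ r < δ := by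
    have h1 : ∀ᶠ r : ℝ in 𝓝[>] 0, r ∈ Ioo (0:ℝ) δ := Ioo_mem_nhdsGT hδ
    filter_upwards [h1] with r hr
    exact hr
  filter_upwards [h, hev] with r hr hrδ
  obtain ⟨u, hu, hu1, hu2⟩ := hr
  refine ⟨u, hu, ?_, hu2⟩
  intro t
  have e1 : F (z + r * Complex.exp (t * Complex.I)) = G (z + r * Complex.exp (t * Complex.I)) := by
    apply hb
    rw [dist_eq_norm, add_sub_cancel_left, norm_mul, Complex.norm_exp_ofReal_mul_I, mul_one,
      Complex.norm_real, Real.norm_of_nonneg hrδ.1.le]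
    exact hrδ.2
  rw [← e1, hu1 t, hFG.self_of_nhds]

section
variable {S : Type*} [TopologicalSpace S] {E : Set ℝ} {j : OpenPartialHomeomorph ℂ S}

lemma T_norm {T : ℂ ≃ₜ ℂ} {ρ : ℝ} (hρ : ∀ z, ρ ≤ ‖z‖ → T z = z) {z : ℂ} (hz : ‖z‖ < ρ) :
    ‖T z‖ < ρ := by
  by_contra h
  have h1 := hρ (T z) (not_lt.1 h)
  have h2 := T.injective h1
  rw [h2] at h
  exact h hz

lemma T_source (hP : Patch E j) {T : ℂ ≃ₜ ℂ} {ρ : ℝ} (hρ1 : ρ < 1)
    (hE : ∀ z ∈ inC E, T z = z) (hρ : ∀ z, ρ ≤ ‖z‖ → T z = z) {z : ℂ} (hz : z ∈ j.source) :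
    T z ∈ j.source := by
  rw [hP.source] at hz ⊢
  refine ⟨?_, ?_⟩
  · by_cases h : ‖z‖ < ρ
    · rw [mem_ball_zero_iff]
      have := T_norm hρ h
      linarith
    · rw [hρ z (not_lt.1 h)]
      exact hz.1
  · intro h
    have h1 := hE (T z) h
    have h2 := T.injective h1
    rw [h2] at h
    exact hz.2 h

open Classical in
/-- the extension by the identity -/
noncomputable def ext (j : OpenPartialHomeomorph ℂ S) (T : ℂ → ℂ) (x : S) : S :=
  if x ∈ j.target then j (T (j.symm x)) else x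

lemma ext_of_mem {T : ℂ → ℂ} {x : S} (hx : x ∈ j.target) : ext j T x = j (T (j.symm x)) := by
  classical
  exact if_pos hx

lemma ext_of_notMem {T : ℂ → ℂ} {x : S} (hx : x ∉ j.target) : ext j T x = x := by
  classical
  exact if_neg hx

lemma ext_j {T : ℂ → ℂ} {z : ℂ} (hz : z ∈ j.source) : ext j T (j z) = j (T z) := by
  rw [ext_of_mem (j.map_source hz), j.left_inv hz]

lemma core_sub (hP : Patch E j) : closedBall (0:ℂ) 1 \ inC E ⊆ j.source := by
  rw [hP.source]
  rintro z ⟨h1, h2⟩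
  refine ⟨?_, h2⟩
  rw [mem_closedBall_zero_iff] at h1
  rw [mem_ball_zero_iff]
  linarith

lemma ext_outside (hP : Patch E j) {T : ℂ ≃ₜ ℂ} {ρ : ℝ} (hρ1 : ρ < 1)
    (hρ : ∀ z, ρ ≤ ‖z‖ → T z = z) {x : S} (hx : x ∉ j '' (closedBall (0 : ℂ) 1 \ inC E)) :
    ext j T x = x := by
  by_cases h : x ∈ j.target
  · rw [ext_of_mem h]
    have h1 : j.symm x ∈ j.source := j.map_target h
    have h2 : ρ ≤ ‖j.symm x‖ := by
      by_contra h3
      apply hx
      refine ⟨j.symm x, ⟨?_, ?_⟩, j.right_inv h⟩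
      · rw [mem_closedBall_zero_iff]
        linarith [not_le.1 h3]
      · rw [hP.source] at h1
        exact h1.2
    rw [hρ _ h2, j.right_inv h]
  · exact ext_of_notMem h

lemma cover (hP : Patch E j) (x : S) :
    x ∈ j.target ∨ x ∉ j '' (closedBall (0 : ℂ) 1 \ inC E) := by
  by_cases h : x ∈ j.target
  · exact Or.inl h
  · right
    rintro ⟨z, hz, rfl⟩
    exact h (j.map_source (core_sub hP hz))

lemma ext_continuous (hP : Patch E j) {T : ℂ ≃ₜ ℂ} {ρ : ℝ} (hρ1 : ρ < 1)
    (hE : ∀ z ∈ inC E, T z = z) (hρ : ∀ z, ρ ≤ ‖z‖ → T z = z) : Continuous (ext j T) := by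
  rw [continuous_iff_continuousAt]
  intro x
  rcases cover hP x with h | h
  · have h1 : ContinuousOn (fun x => j (T (j.symm x))) j.target := by
      apply j.continuousOn.comp (T.continuous.comp_continuousOn j.continuousOn_symm)
      intro y hy
      exact T_source hP hρ1 hE hρ (j.map_target hy)
    have h2 : ContinuousOn (ext j T) j.target := h1.congr (fun y hy => ext_of_mem hy)
    exact h2.continuousAt (j.open_target.mem_nhds h)
  · have h2 : ContinuousOn (ext j T) (j '' (closedBall (0 : ℂ) 1 \ inC E))ᶜ :=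
      continuousOn_id.congr (fun y hy => ext_outside hP hρ1 hρ hy)
    exact h2.continuousAt (hP.closed.isOpen_compl.mem_nhds h)

lemma ext_ext (hP : Patch E j) {T T' : ℂ ≃ₜ ℂ} {ρ : ℝ} (hρ1 : ρ < 1)
    (hE : ∀ z ∈ inC E, T z = z) (hρ : ∀ z, ρ ≤ ‖z‖ → T z = z) (hTT : ∀ z, T' (T z) = z) (x : S) :
    ext j T' (ext j T x) = x := by
  by_cases h : x ∈ j.target
  · rw [ext_of_mem h, ext_j (T_source hP hρ1 hE hρ (j.map_target h)), hTT, j.right_inv h]
  · rw [ext_of_notMem h, ext_of_notMem h]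

/-- the extension as a homeomorphism -/
noncomputable def extH (hP : Patch E j) {T : ℂ ≃ₜ ℂ} {ρ : ℝ} (hρ1 : ρ < 1)
    (hE : ∀ z ∈ inC E, T z = z) (hρ : ∀ z, ρ ≤ ‖z‖ → T z = z) : S ≃ₜ S where
  toFun := ext j T
  invFun := ext j T.symm
  left_inv := ext_ext hP hρ1 hE hρ (fun z => T.symm_apply_apply z)
  right_inv := ext_ext hP hρ1
    (fun z hz => by rw [Homeomorph.symm_apply_eq, hE z hz])
    (fun z hz => by rw [Homeomorph.symm_apply_eq, hρ z hz]) (fun z => T.apply_symm_apply z)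
  continuous_toFun := ext_continuous hP hρ1 hE hρ
  continuous_invFun := ext_continuous hP hρ1
    (fun z hz => by rw [Homeomorph.symm_apply_eq, hE z hz])
    (fun z hz => by rw [Homeomorph.symm_apply_eq, hρ z hz])

lemma extH_apply (hP : Patch E j) {T : ℂ ≃ₜ ℂ} {ρ : ℝ} (hρ1 : ρ < 1)
    (hE : ∀ z ∈ inC E, T z = z) (hρ : ∀ z, ρ ≤ ‖z‖ → T z = z) (x : S) :
    extH hP hρ1 hE hρ x = ext j T x := rfl

/-- the extension fixes the ends -/
lemma extH_fixesEnds (hP : Patch E j) {T : ℂ ≃ₜ ℂ} {ρ : ℝ} (hρ1 : ρ < 1)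
    (hE : ∀ z ∈ inC E, T z = z) (hρ : ∀ z, ρ ≤ ‖z‖ → T z = z) {U : ℕ → Set ℂ}
    (hU : ∀ i, IsOpen (U i)) (hdisj : Pairwise fun i k => Disjoint (U i) (U k))
    (hcl : ∀ i, closure (U i) ⊆ ball 0 1 \ inC E) (hTU : ∀ z, T z ≠ z → ∃ i, z ∈ U i) :
    FixesEnds (extH hP hρ1 hE hρ) := by
  intro ε hε K hK
  set f : S ≃ₜ S := extH hP hρ1 hE hρ with hf
  have hfa : ∀ x, f x = ext j T x := fun x => rfl
  have hK' : IsCompact (f ⁻¹' K) := f.isCompact_preimage.2 hK
  have hL : IsCompact (K ∪ f ⁻¹' K) := hK.union hK'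
  have hclS : ∀ i, closure (U i) ⊆ j.source := fun i z hz => by
    apply core_sub hP
    have := hcl i hz
    exact ⟨ball_subset_closedBall this.1, this.2⟩
  have hUS : ∀ i, U i ⊆ j.source := fun i => subset_closure.trans (hclS i)
  -- a fixed point
  have hfix : ∃ x ∈ ε (K ∪ f ⁻¹' K), f x = x := by
    by_contra hno
    push Not at hno
    obtain ⟨x0, hx0, hεL⟩ := hε.1 _ hL
    have hx0m : x0 ∈ ε (K ∪ f ⁻¹' K) := by
      rw [hεL]
      exact mem_connectedComponentIn hx0
    have hmem : ∀ x ∈ ε (K ∪ f ⁻¹' K), ∃ i, x ∈ j '' (U i) := by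
      intro x hx
      have h1 := hno x hx
      rw [hfa] at h1
      have h2 : x ∈ j.target := by
        by_contra h3
        exact h1 (ext_of_notMem h3)
      rw [ext_of_mem h2] at h1
      have h3 : T (j.symm x) ≠ j.symm x := by
        intro h4
        rw [h4, j.right_inv h2] at h1
        exact h1 rfl
      obtain ⟨i, hi⟩ := hTU _ h3
      exact ⟨i, j.symm x, hi, j.right_inv h2⟩
    obtain ⟨i0, hi0⟩ := hmem x0 hx0m
    have hopen : ∀ i, IsOpen (j '' (U i)) := fun i =>
      j.isOpen_image_of_subset_source (hU i) (hUS i)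
    have hpre : IsPreconnected (ε (K ∪ f ⁻¹' K)) := by
      rw [hεL]
      exact isPreconnected_connectedComponentIn
    have hsub : ε (K ∪ f ⁻¹' K) ⊆ j '' (U i0) := by
      apply hpre.subset_left_of_subset_union (hopen i0)
        (v := ⋃ i : {i : ℕ // i ≠ i0}, j '' (U i))
      · exact isOpen_iUnion (fun i => hopen i)
      · rw [Set.disjoint_iUnion_right]
        intro i
        rw [Set.disjoint_left]
        rintro y ⟨z, hz, rfl⟩ ⟨w, hw, hwz⟩
        have h1 : w = z := j.injOn (hUS _ hw) (hUS _ hz) hwz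
        rw [h1] at hw
        exact Set.disjoint_left.1 (hdisj (Ne.symm i.2)) hz hw
      · intro x hx
        obtain ⟨i, hi⟩ := hmem x hx
        by_cases h : i = i0
        · left
          rw [← h]
          exact hi
        · right
          exact mem_iUnion.2 ⟨⟨i, h⟩, hi⟩
      · exact ⟨x0, hx0m, hi0⟩
    have hcpt : IsCompact (j '' closure (U i0)) := by
      apply IsCompact.image_of_continuousOn
      · apply Metric.isCompact_of_isClosed_isBounded isClosed_closure
        exact (Metric.isBounded_ball (x := (0:ℂ)) (r := 1)).subset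
          (fun z hz => (hcl i0 hz).1)
      · exact j.continuousOn.mono (hclS i0)
    have hL' : IsCompact ((K ∪ f ⁻¹' K) ∪ j '' closure (U i0)) := hL.union hcpt
    obtain ⟨y, hy, hεL'⟩ := hε.1 _ hL'
    have hym : y ∈ ε ((K ∪ f ⁻¹' K) ∪ j '' closure (U i0)) := by
      rw [hεL']
      exact mem_connectedComponentIn hy
    have h1 := hε.2 _ _ hL hL' subset_union_left hym
    have h2 := hsub h1
    apply hy
    right
    obtain ⟨z, hz, rfl⟩ := h2
    exact ⟨z, subset_closure hz, rfl⟩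
  obtain ⟨x, hx, hfx⟩ := hfix
  have hxK : x ∈ ε K := hε.2 _ _ hK hL subset_union_left hx
  have hxK' : x ∈ ε (f ⁻¹' K) := hε.2 _ _ hK' hL subset_union_right hx
  obtain ⟨y, hy, hyε⟩ := hε.1 _ hK
  obtain ⟨y', hy', hyε'⟩ := hε.1 _ hK'
  have e1 : ε K = connectedComponentIn Kᶜ x := by
    rw [hyε] at hxK ⊢
    exact connectedComponentIn_eq hxK
  have e2 : ε (f ⁻¹' K) = connectedComponentIn (f ⁻¹' K)ᶜ x := by
    rw [hyε'] at hxK' ⊢
    exact connectedComponentIn_eq hxK'
  have hxc : x ∈ (f ⁻¹' K)ᶜ := by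
    rw [e2] at hxK'
    exact connectedComponentIn_subset _ _ hxK'
  rw [e1, e2, f.image_connectedComponentIn hxc, hfx]
  congr 1
  rw [← preimage_compl, f.image_preimage]

/-- the extension preserves the orientation -/
lemma extH_pos (h : GoalC1) {O : Set (OpenPartialHomeomorph S ℂ)} (hO : IsOrientedAtlas O)
    (hP : Patch E j) (hjO : j.symm ∈ O) {T : ℂ ≃ₜ ℂ} {ρ : ℝ} (hρ1 : ρ < 1)
    (hE : ∀ z ∈ inC E, T z = z) (hρ : ∀ z, ρ ≤ ‖z‖ → T z = z)
    (hpos : ∀ z ∉ inC E, PosAt T z) : PreservesOrientation O (extH hP hρ1 hE hρ) := by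
  intro φ hφ ψ hψ x hx hfx
  rw [extH_apply] at hfx
  rcases cover hP x with hxt | hxt
  · -- inside the patch
    set w : ℂ := j.symm x with hw
    have hws : w ∈ j.source := j.map_target hxt
    have hwE : w ∉ inC E := by
      rw [hP.source] at hws
      exact hws.2
    have hTs : T w ∈ j.source := T_source hP hρ1 hE hρ hws
    have hfe : ext j T x = j (T w) := ext_of_mem hxt
    rw [hfe] at hfx
    have hφx : φ.symm (φ x) = x := φ.left_inv hx
    -- first map
    have p1 : PosAt (fun z => j.symm (φ.symm z)) (φ x) := hO.2 φ hφ j.symm hjO x ⟨hx, hxt⟩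
    have c1 : ∀ᶠ z in 𝓝 (φ x), ContinuousAt (fun z => j.symm (φ.symm z)) z := by
      have ho : IsOpen (φ.target ∩ φ.symm ⁻¹' j.target) :=
        φ.isOpen_inter_preimage_symm j.open_target
      have hm : φ x ∈ φ.target ∩ φ.symm ⁻¹' j.target := by
        refine ⟨φ.map_source hx, ?_⟩
        rw [mem_preimage, hφx]
        exact hxt
      filter_upwards [ho.mem_nhds hm] with z hz
      exact ContinuousAt.comp (g := j.symm) (j.continuousAt_symm hz.2)
        (φ.continuousAt_symm hz.1)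
    have v1 : j.symm (φ.symm (φ x)) = w := by
      rw [hφx]
    -- second map
    have p2 : PosAt (fun z => T (j.symm (φ.symm z))) (φ x) := by
      apply h (fun z => j.symm (φ.symm z)) T (φ x) p1 c1.self_of_nhds
      · rw [v1]
        exact hpos w hwE
      · exact Filter.Eventually.of_forall (fun z => T.continuous.continuousAt)
      · exact Filter.Eventually.of_forall (fun z hz => T.injective hz)
      · exact c1
    have c2 : ∀ᶠ z in 𝓝 (φ x), ContinuousAt (fun z => T (j.symm (φ.symm z))) z := by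
      filter_upwards [c1] with z hz
      exact T.continuous.continuousAt.comp hz
    have v2 : T (j.symm (φ.symm (φ x))) = T w := by
      rw [hφx]
    -- third map
    have hjT : j.symm (j (T w)) = T w := j.left_inv hTs
    have p3 : PosAt (fun z => ψ (j z)) (T w) := by
      have := hO.2 j.symm hjO ψ hψ (j (T w)) ⟨j.map_source hTs, hfx⟩
      rw [OpenPartialHomeomorph.symm_symm, hjT] at this
      exact this
    have ho3 : IsOpen (j.source ∩ j ⁻¹' ψ.source) := j.isOpen_inter_preimage ψ.open_source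
    have hm3 : T w ∈ j.source ∩ j ⁻¹' ψ.source := ⟨hTs, hfx⟩
    have p4 : PosAt (fun z => (fun y => ψ (j y)) ((fun z => T (j.symm (φ.symm z))) z)) (φ x) := by
      apply h (fun z => T (j.symm (φ.symm z))) (fun y => ψ (j y)) (φ x) p2 c2.self_of_nhds
      · rw [v2]
        exact p3
      · rw [v2]
        filter_upwards [ho3.mem_nhds hm3] with z hz
        exact ContinuousAt.comp (g := ψ) (ψ.continuousAt hz.2) (j.continuousAt hz.1)
      · rw [v2]
        filter_upwards [ho3.mem_nhds hm3] with z hz hzz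
        have e1 := ψ.injOn hz.2 hfx hzz
        exact j.injOn hz.1 hTs e1
      · exact c2
    refine posAt_congr p4 ?_
    have ho : IsOpen (φ.target ∩ φ.symm ⁻¹' j.target) :=
      φ.isOpen_inter_preimage_symm j.open_target
    have hm : φ x ∈ φ.target ∩ φ.symm ⁻¹' j.target := by
      refine ⟨φ.map_source hx, ?_⟩
      rw [mem_preimage, hφx]
      exact hxt
    filter_upwards [ho.mem_nhds hm] with z hz
    rw [extH_apply, ext_of_mem hz.2]
  · -- outside: the map is the identity near `x`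
    have hfe : ext j T x = x := ext_outside hP hρ1 hρ hxt
    rw [hfe] at hfx
    have p1 : PosAt (fun z => ψ (φ.symm z)) (φ x) := hO.2 φ hφ ψ hψ x ⟨hx, hfx⟩
    refine posAt_congr p1 ?_
    have ho : IsOpen (φ.target ∩ φ.symm ⁻¹' (j '' (closedBall (0 : ℂ) 1 \ inC E))ᶜ) :=
      φ.isOpen_inter_preimage_symm hP.closed.isOpen_compl
    have hm : φ x ∈ φ.target ∩ φ.symm ⁻¹' (j '' (closedBall (0 : ℂ) 1 \ inC E))ᶜ := by
      refine ⟨φ.map_source hx, ?_⟩
      rw [mem_preimage, φ.left_inv hx]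
      exact hxt
    filter_upwards [ho.mem_nhds hm] with z hz
    rw [extH_apply, ext_outside hP hρ1 hρ hz.2]

end

theorem goalC4 (h : GoalC1) : GoalC4 := by
  intro S _ _ O E j hO hP hjO T ρ U hρ1 hE hρ hU hdisj hcl hTU hpos
  refine ⟨extH hP hρ1 hE hρ, extH_fixesEnds hP hρ1 hE hρ hU hdisj hcl hTU,
    extH_pos h hO hP hjO hρ1 hE hρ hpos, ?_⟩
  intro z hz
  rw [extH_apply, ext_j hz]

end Pool.Agent.Helper67.Big
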